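import Mathlib
import Pool.Agent.H495Z.Main

/-!
For an odd prime `p` and every `s` there are only finitely many `p`-adic space groups of finite
coclass whose point group has coclass `s`, up to isomorphism of topological groups.
The definitions are in `Pool/Agent/H495Z/Defs.lean`.
-/

set_option autoImplicit false

universe u

namespace Pool.Agent.Results.MP_9a3597_al.Finiteness

open Pool.Agent.H495Z

theorem result (p : ℕ) [Fact p.Prime] (hp : Odd p) (s : ℕ) :
    ∃ (n : ℕ) (G : Fin n → ProfiniteGrp.{u}), ∀ (R : ProfiniteGrp.{u}) (T : Subgroup R)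
      [T.Normal], IsSpaceGroup p R T → FiniteCoclass p R → HasCoclass p (R ⧸ T) s →
      ∃ i, Nonempty (R ≃ₜ* G i) :=
  main p hp s

end Pool.Agent.Results.MP_9a3597_al.Finiteness
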